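import Mathlib.Computability.DFA
import Mathlib.Data.List.Basic
import Mathlib.Tactic

/-!
# Edit distance: single-symbol edits and alignments
-/

namespace Pool.Agent.Q326.ED

variable {α : Type}

/-- `Edit u v`: the word `v` is obtained from the word `u` by the insertion, the deletion or the
substitution of a single symbol. -/
inductive Edit : List α → List α → Prop
  | ins (p s : List α) (a : α) : Edit (p ++ s) (p ++ a :: s)
  | del (p s : List α) (a : α) : Edit (p ++ a :: s) (p ++ s)
  | sub (p s : List α) (a b : α) : Edit (p ++ a :: s) (p ++ b :: s)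

/-- `Edits n u v`: the word `u` is transformed into the word `v` by `n` single-symbol edits. -/
inductive Edits : ℕ → List α → List α → Prop
  | refl (u : List α) : Edits 0 u u
  | step {n : ℕ} {u v w : List α} : Edits n u v → Edit v w → Edits (n + 1) u w

/-- The edit (Levenshtein) distance. -/
noncomputable def dist (u v : List α) : ℕ := sInf {n | Edits n u v}

/-- The ball of radius `k` around `x`, a language. -/
def ball (k : ℕ) (x : List α) : Language α := {w | dist x w ≤ k}

/-- alignments of two words with their costs -/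
inductive Al : List α → List α → ℕ → Prop
  | nil : Al [] [] 0
  | del {u v : List α} {n : ℕ} (a : α) : Al u v n → Al (a :: u) v (n + 1)
  | ins {u v : List α} {n : ℕ} (b : α) : Al u v n → Al u (b :: v) (n + 1)
  | sub {u v : List α} {n : ℕ} (a b : α) : Al u v n → Al (a :: u) (b :: v) (n + 1)
  | keep {u v : List α} {n : ℕ} (a : α) : Al u v n → Al (a :: u) (a :: v) n

namespace Al

theorem refl (u : List α) : Al u u 0 := by
  induction u with
  | nil => exact .nil
  | cons a u ih => exact .keep a ih

theorem length_le {u v : List α} {n : ℕ} (h : Al u v n) :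
    u.length ≤ v.length + n ∧ v.length ≤ u.length + n := by
  induction h with
  | nil => simp
  | del a _ ih => simp; omega
  | ins a _ ih => simp; omega
  | sub a b _ ih => simp; omega
  | keep a _ ih => simp; omega

theorem append {u v u' v' : List α} {m n : ℕ} (h : Al u v m) (h' : Al u' v' n) :
    Al (u ++ u') (v ++ v') (m + n) := by
  induction h with
  | nil => simpa using h'
  | del a _ ih => simpa [Nat.add_right_comm] using Al.del a ih
  | ins a _ ih => simpa [Nat.add_right_comm] using Al.ins a ih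
  | sub a b _ ih => simpa [Nat.add_right_comm] using Al.sub a b ih
  | keep a _ ih => simpa using Al.keep a ih

/-- splitting an alignment along a splitting of the second word -/
theorem split {u b : List α} {n : ℕ} (h : Al u b n) : ∀ v v' : List α, b = v ++ v' →
    ∃ u₁ u₂ m₁ m₂, u = u₁ ++ u₂ ∧ m₁ + m₂ = n ∧ Al u₁ v m₁ ∧ Al u₂ v' m₂ := by
  induction h with
  | nil =>
    intro v v' hv
    obtain ⟨rfl, rfl⟩ := List.append_eq_nil_iff.1 hv.symm
    exact ⟨[], [], 0, 0, rfl, rfl, .nil, .nil⟩
  | @del u b n a h ih =>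
    intro v v' hv
    obtain ⟨u₁, u₂, m₁, m₂, rfl, rfl, h1, h2⟩ := ih v v' hv
    exact ⟨a :: u₁, u₂, m₁ + 1, m₂, rfl, by omega, .del a h1, h2⟩
  | @ins u b n c h ih =>
    intro v v' hv
    cases v with
    | nil =>
      simp only [List.nil_append] at hv
      subst hv
      exact ⟨[], u, 0, n + 1, rfl, by omega, .nil, .ins c h⟩
    | cons d v =>
      simp only [List.cons_append, List.cons.injEq] at hv
      obtain ⟨rfl, hv⟩ := hv
      obtain ⟨u₁, u₂, m₁, m₂, rfl, rfl, h1, h2⟩ := ih v v' hv
      exact ⟨u₁, u₂, m₁ + 1, m₂, rfl, by omega, .ins c h1, h2⟩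
  | @sub u b n a c h ih =>
    intro v v' hv
    cases v with
    | nil =>
      simp only [List.nil_append] at hv
      subst hv
      exact ⟨[], a :: u, 0, n + 1, rfl, by omega, .nil, .sub a c h⟩
    | cons d v =>
      simp only [List.cons_append, List.cons.injEq] at hv
      obtain ⟨rfl, hv⟩ := hv
      obtain ⟨u₁, u₂, m₁, m₂, rfl, rfl, h1, h2⟩ := ih v v' hv
      exact ⟨a :: u₁, u₂, m₁ + 1, m₂, rfl, by omega, .sub a c h1, h2⟩
  | @keep u b n a h ih =>
    intro v v' hv
    cases v with
    | nil =>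
      simp only [List.nil_append] at hv
      subst hv
      exact ⟨[], a :: u, 0, n, rfl, by omega, .nil, .keep a h⟩
    | cons d v =>
      simp only [List.cons_append, List.cons.injEq] at hv
      obtain ⟨rfl, hv⟩ := hv
      obtain ⟨u₁, u₂, m₁, m₂, rfl, rfl, h1, h2⟩ := ih v v' hv
      exact ⟨a :: u₁, u₂, m₁, m₂, rfl, by omega, .keep a h1, h2⟩

/-- cutting an alignment at the last kept letter -/
theorem last {u v : List α} {n : ℕ} (h : Al u v n) :
    (u.length ≤ n ∧ v.length ≤ n) ∨ ∃ u₁ v₁ a u₂ v₂ m₁ m₂, u = u₁ ++ a :: u₂ ∧ v = v₁ ++ a :: v₂ ∧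
      m₁ + m₂ = n ∧ Al u₁ v₁ m₁ ∧ u₂.length ≤ m₂ ∧ v₂.length ≤ m₂ := by
  induction h with
  | nil => left; simp
  | @del u v n a h ih =>
    rcases ih with ih | ⟨u₁, v₁, c, u₂, v₂, m₁, m₂, rfl, rfl, rfl, h1, h2, h3⟩
    · left; simp; omega
    · right
      exact ⟨a :: u₁, v₁, c, u₂, v₂, m₁ + 1, m₂, rfl, rfl, by omega, .del a h1, h2, h3⟩
  | @ins u v n a h ih =>
    rcases ih with ih | ⟨u₁, v₁, c, u₂, v₂, m₁, m₂, rfl, rfl, rfl, h1, h2, h3⟩
    · left; simp; omega
    · right
      exact ⟨u₁, a :: v₁, c, u₂, v₂, m₁ + 1, m₂, rfl, rfl, by omega, .ins a h1, h2, h3⟩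
  | @sub u v n a b h ih =>
    rcases ih with ih | ⟨u₁, v₁, c, u₂, v₂, m₁, m₂, rfl, rfl, rfl, h1, h2, h3⟩
    · left; simp; omega
    · right
      exact ⟨a :: u₁, b :: v₁, c, u₂, v₂, m₁ + 1, m₂, rfl, rfl, by omega, .sub a b h1, h2, h3⟩
  | @keep u v n a h ih =>
    rcases ih with ih | ⟨u₁, v₁, c, u₂, v₂, m₁, m₂, rfl, rfl, rfl, h1, h2, h3⟩
    · right
      exact ⟨[], [], a, u, v, 0, n, rfl, rfl, by omega, .nil, ih.1, ih.2⟩
    · right
      exact ⟨a :: u₁, a :: v₁, c, u₂, v₂, m₁, m₂, rfl, rfl, by omega, .keep a h1, h2, h3⟩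

/-- a single edit changes the costs of an alignment by at most one -/
theorem edit {u v w : List α} {n : ℕ} (h : Al u v n) (e : Edit v w) :
    ∃ m ≤ n + 1, Al u w m := by
  cases e with
  | ins p s a =>
    obtain ⟨u₁, u₂, m₁, m₂, rfl, rfl, h1, h2⟩ := h.split p s rfl
    exact ⟨m₁ + (m₂ + 1), by omega, h1.append (.ins a h2)⟩
  | del p s a =>
    obtain ⟨u₁, u₂, m₁, m₂, rfl, rfl, h1, h2⟩ := h.split p (a :: s) rfl
    obtain ⟨u₃, u₄, m₃, m₄, rfl, rfl, h3, h4⟩ := h2.split [a] s rfl
    have h5 : ∃ m ≤ m₃ + 1, Al u₃ [] m := by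
      clear h1 h2 h4 h
      generalize hb : [a] = b at h3
      induction h3 with
      | nil => cases hb
      | @del x y n c _ ih =>
        obtain ⟨m, hm, hh⟩ := ih hb
        exact ⟨m + 1, by omega, .del c hh⟩
      | ins c hh ih =>
        cases hb
        exact ⟨_, by omega, hh⟩
      | sub c d hh ih =>
        cases hb
        exact ⟨_, Nat.le_succ _, .del _ hh⟩
      | keep c hh ih =>
        cases hb
        exact ⟨_, le_rfl, .del _ hh⟩
    obtain ⟨m, hm, h6⟩ := h5
    refine ⟨m₁ + (m + m₄), by omega, ?_⟩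
    simpa using h1.append (h6.append h4)
  | sub p s a b =>
    obtain ⟨u₁, u₂, m₁, m₂, rfl, rfl, h1, h2⟩ := h.split p (a :: s) rfl
    obtain ⟨u₃, u₄, m₃, m₄, rfl, rfl, h3, h4⟩ := h2.split [a] s rfl
    have h5 : ∃ m ≤ m₃ + 1, Al u₃ [b] m := by
      clear h1 h2 h4 h
      generalize hb : [a] = c at h3
      induction h3 with
      | nil => cases hb
      | @del x y n c _ ih =>
        obtain ⟨m, hm, hh⟩ := ih hb
        exact ⟨m + 1, by omega, .del c hh⟩
      | ins c hh ih =>
        cases hb
        exact ⟨_, by omega, .ins b hh⟩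
      | sub c d hh ih =>
        cases hb
        exact ⟨_, by omega, .sub _ b hh⟩
      | keep c hh ih =>
        cases hb
        exact ⟨_, le_rfl, .sub _ b hh⟩
    obtain ⟨m, hm, h6⟩ := h5
    refine ⟨m₁ + (m + m₄), by omega, ?_⟩
    simpa using h1.append (h6.append h4)

theorem of_edits {u v : List α} {n : ℕ} (h : Edits n u v) : ∃ m ≤ n, Al u v m := by
  induction h with
  | refl u => exact ⟨0, le_rfl, refl u⟩
  | step _ e ih =>
    obtain ⟨m, hm, h1⟩ := ih
    obtain ⟨m', hm', h2⟩ := h1.edit e
    exact ⟨m', by omega, h2⟩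

end Al

theorem Edits.trans {u v w : List α} {m n : ℕ} (h : Edits m u v) (h' : Edits n v w) :
    Edits (m + n) u w := by
  induction h' with
  | refl => exact h
  | step _ e ih => exact .step (ih h) e

theorem Edit.cons {u v : List α} (a : α) (h : Edit u v) : Edit (a :: u) (a :: v) := by
  cases h with
  | ins p s c => exact .ins (a :: p) s c
  | del p s c => exact .del (a :: p) s c
  | sub p s c d => exact .sub (a :: p) s c d

theorem Edits.cons {u v : List α} {n : ℕ} (a : α) (h : Edits n u v) :
    Edits n (a :: u) (a :: v) := by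
  induction h with
  | refl => exact .refl _
  | step _ e ih => exact .step ih (e.cons a)

theorem Al.edits {u v : List α} {n : ℕ} (h : Al u v n) : Edits n u v := by
  induction h with
  | nil => exact .refl _
  | @del u v n a h ih =>
    have h1 : Edits 1 (a :: u) u := .step (.refl _) (.del [] u a)
    have := h1.trans ih
    rwa [add_comm] at this
  | @ins u v n a h ih => exact ih.step (.ins [] v a)
  | @sub u v n a b h ih => exact (ih.cons a).step (.sub [] v a b)
  | @keep u v n a h ih => exact ih.cons a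

theorem Al.del_all (u : List α) : Al u [] u.length := by
  induction u with
  | nil => exact .nil
  | cons a u ih => exact .del a ih

theorem Al.ins_all (u : List α) : Al [] u u.length := by
  induction u with
  | nil => exact .nil
  | cons a u ih => exact .ins a ih

theorem mem_ball_iff {k : ℕ} {x w : List α} : w ∈ ball k x ↔ ∃ n ≤ k, Al x w n := by
  have hne : {n | Edits n x w}.Nonempty := by
    refine ⟨x.length + w.length, ?_⟩
    have := (Al.del_all x).append (Al.ins_all w)
    simpa using this.edits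
  constructor
  · intro h
    have h1 : dist x w ∈ {n | Edits n x w} := Nat.sInf_mem hne
    obtain ⟨m, hm, h2⟩ := Al.of_edits h1
    exact ⟨m, hm.trans h, h2⟩
  · rintro ⟨n, hn, h⟩
    exact (Nat.sInf_le h.edits).trans hn

end Pool.Agent.Q326.ED
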