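import Pool.Agent.Q326.ED.Basic

/-!
# Exponentially many states for the balls of the edit distance
-/

namespace Pool.Agent.Q326.ED

variable {α : Type}

/-- the letters `f i, f (i + 1), ..., f (i + l - 1)` -/
def R (f : ℕ → α) (i l : ℕ) : List α := (List.range' i l).map f

@[simp] theorem length_R (f : ℕ → α) (i l : ℕ) : (R f i l).length = l := by simp [R]

theorem getElem?_R (f : ℕ → α) (i l p : ℕ) :
    (R f i l)[p]? = if p < l then some (f (i + p)) else none := by
  rw [R, List.getElem?_map]
  split_ifs with h
  · rw [List.getElem?_range' h]; simp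
  · rw [List.getElem?_eq_none (by simp; omega)]; rfl

theorem R_append (f : ℕ → α) (i l l' : ℕ) : R f i l ++ R f (i + l) l' = R f i (l + l') := by
  rw [R, R, R, ← List.map_append]
  congr 1
  have := List.range'_append (s := i) (m := l) (n := l') (step := 1)
  simpa using this

theorem R_succ (f : ℕ → α) (i l : ℕ) : R f i (l + 1) = R f i l ++ [f (i + l)] := by
  rw [← R_append]
  rfl

/-- the word `f (b 0), f (3 + b 1), ..., f (3 (t - 1) + b (t - 1))` -/
def U (f : ℕ → α) (b : ℕ → Bool) (t : ℕ) : List α :=
  (List.range t).map fun q => f (3 * q + (b q).toNat)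

@[simp] theorem length_U (f : ℕ → α) (b : ℕ → Bool) (t : ℕ) : (U f b t).length = t := by simp [U]

theorem U_succ (f : ℕ → α) (b : ℕ → Bool) (t : ℕ) :
    U f b (t + 1) = U f b t ++ [f (3 * t + (b t).toNat)] := by
  simp [U, List.range_succ]

theorem getElem?_U (f : ℕ → α) (b : ℕ → Bool) (t p : ℕ) :
    (U f b t)[p]? = if p < t then some (f (3 * p + (b p).toNat)) else none := by
  rw [U, List.getElem?_map]
  split_ifs with h
  · rw [List.getElem?_range h]; rfl
  · rw [List.getElem?_eq_none (by simp; omega)]; rfl

theorem U_split (f : ℕ → α) (b : ℕ → Bool) (t : ℕ) : ∀ N, t ≤ N →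
    ∃ r : List α, r.length = N - t ∧ U f b N = U f b t ++ r := by
  intro N hN
  induction N, hN using Nat.le_induction with
  | base => exact ⟨[], by simp, by simp⟩
  | succ N hN ih =>
    obtain ⟨r, hr, h⟩ := ih
    refine ⟨r ++ [f (3 * N + (b N).toNat)], by simp [hr]; omega, ?_⟩
    rw [U_succ, h, List.append_assoc]

theorem Al.sub_all : ∀ {u v : List α}, u.length = v.length → Al u v u.length
  | [], [], _ => .nil
  | [], _ :: _, h => by simp at h
  | _ :: _, [], h => by simp at h
  | a :: u, b :: v, h => by
    have := Al.sub_all (u := u) (v := v) (by simpa using h)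
    exact .sub a b this

theorem blocks (f : ℕ → α) (b : ℕ → Bool) (t : ℕ) : Al (R f 0 (3 * t)) (U f b t) (2 * t) := by
  induction t with
  | zero => exact .nil
  | succ t ih =>
    have e : R f 0 (3 * (t + 1)) = R f 0 (3 * t) ++ [f (3 * t), f (3 * t + 1), f (3 * t + 2)] := by
      rw [show 3 * (t + 1) = 3 * t + 1 + 1 + 1 by ring, R_succ, R_succ, R_succ]
      simp
    rw [e, U_succ, show 2 * (t + 1) = 2 * t + 2 by ring]
    refine ih.append ?_
    cases b t with
    | false => exact .keep _ (.del _ (.del _ .nil))
    | true => exact .del _ (.keep _ (.del _ .nil))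

/-- the upper bound for the costs of the first part -/
theorem upper {f : ℕ → α} {b : ℕ → Bool} {N q : ℕ} (hq : q < N) (hb : b q = false) :
    Al (R f 0 (N + 2 * q)) (U f b N) (N + q - 1) := by
  obtain ⟨r, hr, h⟩ := U_split f b (q + 1) N hq
  rw [h, U_succ, hb]
  have e : R f 0 (N + 2 * q) = R f 0 (3 * q) ++ [f (3 * q)] ++ R f (3 * q + 1) (N - q - 1) := by
    have h1 : R f 0 (3 * q + 1) = R f 0 (3 * q) ++ [f (3 * q)] := by simp [R_succ]
    rw [← h1]
    have h2 := R_append f 0 (3 * q + 1) (N - q - 1)
    rw [zero_add] at h2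
    rw [h2]
    congr 1
    omega
  rw [e]
  have h1 : Al (R f (3 * q + 1) (N - q - 1)) r (N - q - 1) := by
    have := Al.sub_all (u := R f (3 * q + 1) (N - q - 1)) (v := r) (by rw [length_R, hr]; omega)
    rwa [length_R] at this
  have h2 := ((blocks f b q).append (Al.refl [f (3 * q)])).append h1
  have h3 : 2 * q + 0 + (N - q - 1) = N + q - 1 := by omega
  rw [h3] at h2
  simpa using h2

/-- the lower bound for the costs of the first part -/
theorem lower {f : ℕ → α} {b : ℕ → Bool} {N q n i' m : ℕ}
    (hf : ∀ i j, i < n → j < n → f i = f j → i = j)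
    (hn : 3 * N ≤ n) (hi : i' ≤ n) (hq : q < N) (hb : b q = true)
    (h : Al (R f 0 i') (U f b N) m) :
    N + q ≤ m + (N + 2 * q - i') + (i' - (N + 2 * q)) := by
  rcases h.last with ⟨h1, _⟩ | ⟨x₁, u₁, a, x₂, u₂, m₁, m₂, hx, hu, rfl, h1, h2, h3⟩
  · rw [length_R] at h1
    omega
  · have e1 : (R f 0 i')[x₁.length]? = some a := by rw [hx]; simp
    have e2 : (U f b N)[u₁.length]? = some a := by rw [hu]; simp
    rw [getElem?_R] at e1
    rw [getElem?_U] at e2
    split_ifs at e1 e2 with g1 g2
    simp only [Option.some.injEq, zero_add] at e1 e2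
    have hbq : (b u₁.length).toNat ≤ 1 := by cases b u₁.length <;> simp
    have e3 : x₁.length = 3 * u₁.length + (b u₁.length).toNat :=
      hf _ _ (by omega) (by omega) (e1.trans e2.symm)
    have l1 : i' = x₁.length + 1 + x₂.length := by
      have := congrArg List.length hx
      simp at this; omega
    have l2 : N = u₁.length + 1 + u₂.length := by
      have := congrArg List.length hu
      simp at this; omega
    have l3 := h1.length_le
    rcases lt_trichotomy u₁.length q with h4 | h4 | h4
    · omega
    · rw [h4, hb] at e3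
      simp at e3
      omega
    · omega

/-- the lower bound for the costs of the second part -/
theorem lower' {f : ℕ → α} {n i i' w m : ℕ} {z : α}
    (hf : ∀ i j, i < n → j < n → f i = f j → i = j) (hz : ∀ i < n, f i ≠ z)
    (hi : i ≤ n) (hi' : i' ≤ n)
    (h : Al (R f i' (n - i')) (R f i (n - i) ++ List.replicate w z) m) :
    (i - i') + (i' - i) + w ≤ m ∨ n - i ≤ m := by
  rcases le_or_gt i i' with hh | hh
  · left
    have := h.length_le
    simp at this
    omega
  rcases h.last with ⟨h1, _⟩ | ⟨y₁, v₁, a, y₂, v₂, m₁, m₂, hy, hv, rfl, h1, h2, h3⟩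
  · right
    rw [length_R] at h1
    omega
  · left
    have e1 : (R f i' (n - i'))[y₁.length]? = some a := by rw [hy]; simp
    rw [getElem?_R] at e1
    split_ifs at e1 with g1
    simp only [Option.some.injEq] at e1
    have e2 : (R f i (n - i) ++ List.replicate w z)[v₁.length]? = some a := by rw [hv]; simp
    rcases lt_or_ge v₁.length (n - i) with g2 | g2
    · rw [List.getElem?_append_left (by simpa using g2), getElem?_R, if_pos g2] at e2
      simp only [Option.some.injEq] at e2
      have e3 : i' + y₁.length = i + v₁.length :=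
        hf _ _ (by omega) (by omega) (e1.trans e2.symm)
      have l1 := h1.length_le
      have l2 := congrArg List.length hv
      simp at l2
      omega
    · rw [List.getElem?_append_right (by simpa using g2), List.getElem?_replicate] at e2
      split_ifs at e2 with g3
      simp only [Option.some.injEq] at e2
      exact absurd (e1.trans e2.symm) (hz _ (by omega))

theorem take_R {f : ℕ → α} {n : ℕ} {x₁ x₂ : List α} (h : R f 0 n = x₁ ++ x₂) :
    x₁.length ≤ n ∧ x₁ = R f 0 x₁.length ∧ x₂ = R f x₁.length (n - x₁.length) := by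
  have h1 : x₁.length ≤ n := by
    have := congrArg List.length h
    simp at this; omega
  have h2 := R_append f 0 x₁.length (n - x₁.length)
  rw [zero_add, show x₁.length + (n - x₁.length) = n by omega, h] at h2
  obtain ⟨h3, h4⟩ := List.append_inj h2 (by simp)
  exact ⟨h1, h3.symm, h4.symm⟩

/-- words given by different sequences of bits are distinguished by a continuation -/
theorem distinguish {f : ℕ → α} {N : ℕ} {z : α}
    (hf : ∀ i j, i < 6 * N → j < 6 * N → f i = f j → i = j) (hz : ∀ i < 6 * N, f i ≠ z)
    {b b' : ℕ → Bool} {q : ℕ} (hq : q < N) (hb : b q = false) (hb' : b' q = true) :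
    ∃ v : List α, U f b N ++ v ∈ ball (2 * N) (R f 0 (6 * N)) ∧
      U f b' N ++ v ∉ ball (2 * N) (R f 0 (6 * N)) := by
  refine ⟨R f (N + 2 * q) (6 * N - (N + 2 * q)) ++ List.replicate (N + 1 - q) z, ?_, ?_⟩
  · rw [mem_ball_iff]
    refine ⟨(N + q - 1) + (0 + (N + 1 - q)), by omega, ?_⟩
    have h1 := R_append f 0 (N + 2 * q) (6 * N - (N + 2 * q))
    rw [zero_add, show N + 2 * q + (6 * N - (N + 2 * q)) = 6 * N by omega] at h1
    have h2 := (Al.refl (R f (N + 2 * q) (6 * N - (N + 2 * q)))).append
      (Al.ins_all (List.replicate (N + 1 - q) z))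
    rw [List.append_nil, List.length_replicate] at h2
    have h3 := (upper (f := f) hq hb).append h2
    rwa [h1] at h3
  · rw [mem_ball_iff]
    rintro ⟨m, hm, h⟩
    obtain ⟨x₁, x₂, m₁, m₂, hx, rfl, h1, h2⟩ := h.split _ _ rfl
    obtain ⟨hl, e1, e2⟩ := take_R hx
    rw [e1] at h1
    rw [e2] at h2
    have h3 := lower (n := 6 * N) hf (by omega) hl hq hb' h1
    have h4 := lower' hf hz (by omega) hl h2
    omega

theorem exists_ne {N : ℕ} {b b' : Fin N → Bool} (h : b ≠ b') : ∃ q : Fin N, b q ≠ b' q := by
  by_contra hh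
  push Not at hh
  exact h (funext hh)

/-- every automaton for the ball of radius `2 N` around the word `x = f 0 ... f (6 N - 1)` has at
least `2 ^ N` states -/
theorem states {f : ℕ → α} {N : ℕ} {z : α}
    (hf : ∀ i j, i < 6 * N → j < 6 * N → f i = f j → i = j) (hz : ∀ i < 6 * N, f i ≠ z)
    {σ : Type} [Fintype σ] (M : DFA α σ) (hM : M.accepts = ball (2 * N) (R f 0 (6 * N))) :
    2 ^ N ≤ Fintype.card σ := by
  let g : (Fin N → Bool) → ℕ → Bool := fun b q => if h : q < N then b ⟨q, h⟩ else false
  have hinj : Function.Injective fun b : Fin N → Bool => M.eval (U f (g b) N) := by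
    have key : ∀ b b' : Fin N → Bool, ∀ q : Fin N, b q = false → b' q = true →
        M.eval (U f (g b) N) ≠ M.eval (U f (g b') N) := by
      intro b b' q h1 h2 he
      obtain ⟨v, hv, hv'⟩ := distinguish (b := g b) (b' := g b') hf hz q.2
        (by simp [g, h1]) (by simp [g, h2])
      rw [← hM, DFA.mem_accepts] at hv hv'
      apply hv'
      have e : M.eval (U f (g b') N ++ v) = M.eval (U f (g b) N ++ v) := by
        simp only [DFA.eval, DFA.evalFrom_of_append] at he ⊢
        rw [he]
      rw [e]
      exact hv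
    intro b b' he
    by_contra hne
    obtain ⟨q, hq⟩ := exists_ne hne
    cases h1 : b q <;> cases h2 : b' q
    · exact hq (h1.trans h2.symm)
    · exact key b b' q h1 h2 he
    · exact key b' b q h2 h1 he.symm
    · exact hq (h1.trans h2.symm)
  have := Fintype.card_le_of_injective _ hinj
  simpa using this

end Pool.Agent.Q326.ED
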